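import Pool.Agent.H32.QC.TargetsL

/-! row LPBM of MP_63b6b1_nt (board qcf): the symbol is bimultiplicative at all places -/

set_option autoImplicit false

open NumberField IsDedekindDomain Pool.Agent.H32.QC

namespace Pool.Agent.H38.QCL

theorem pf_PBM (hNIV : T_NIV) (hREA : T_REA) (hBIM : T_BIM) : T_PBM := by
  intro K _ _ v a b c ha hb hc
  cases v with
  | inl v =>
    show hil (ic v a) (ic v (b * c)) = hil (ic v a) (ic v b) * hil (ic v a) (ic v c)
    rw [map_mul]
    exact hBIM _ (hNIV K v).1 (hNIV K v).2.1 _ _ _ ((map_ne_zero _).2 ha) ((map_ne_zero _).2 hb)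
      ((map_ne_zero _).2 hc)
  | inr φ =>
    show hil (φ a) (φ (b * c)) = hil (φ a) (φ b) * hil (φ a) (φ c)
    rw [map_mul]
    exact hBIM ℝ two_ne_zero hREA.1 _ _ _ ((map_ne_zero _).2 ha) ((map_ne_zero _).2 hb)
      ((map_ne_zero _).2 hc)

end Pool.Agent.H38.QCL
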